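import Mathlib
import Pool.Agent.W430.Sp.Chain

/-!
# Matrix algebras over infinite fields of characteristic two are not Specht

For every infinite field `F` of characteristic two and every `n ≥ 10` the variety generated by the
matrix algebra `M_n(F)` has a subvariety which is not finitely based. The theorem `not_fg_unital`
is the analogous statement for the T-ideals of the free unital algebra.
-/

set_option autoImplicit false
set_option linter.unusedSectionVars false

namespace Pool.Agent.Results.MP_63ef02_al.NotSpecht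

open Pool.Agent.W430.Sp

/-- The free associative algebra (without unit) on countably many variables `x₀, x₁, …`: the
polynomials without constant term. -/
abbrev Poly (F : Type) [Field F] : Type := MonoidAlgebra F (FreeSemigroup ℕ)

section

variable {F : Type} [Field F] {A : Type} [NonUnitalRing A] [Module F A] [IsScalarTower F A A]
  [SMulCommClass F A A]

/-- The value `f(a₀, a₁, …)` of polynomials, a homomorphism of algebras. -/
noncomputable def evalAt (a : ℕ → A) : Poly F →ₙₐ[F] A :=
  MonoidAlgebra.liftMagma F (FreeSemigroup.lift a)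

end

/-- `T(A)`: the polynomials without constant term which vanish on the algebra `A`. -/
def identities (F : Type) [Field F] (A : Type) [NonUnitalRing A] [Module F A]
    [IsScalarTower F A A] [SMulCommClass F A A] : Set (Poly F) :=
  {f | ∀ a : ℕ → A, evalAt a f = 0}

/-- T-ideals: ideals of the free algebra stable under all its endomorphisms. -/
structure IsTIdeal {F : Type} [Field F] (U : Set (Poly F)) : Prop where
  zero_mem : (0 : Poly F) ∈ U
  add_mem : ∀ f ∈ U, ∀ g ∈ U, f + g ∈ U
  smul_mem : ∀ (c : F), ∀ f ∈ U, c • f ∈ U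
  mul_left_mem : ∀ (g : Poly F), ∀ f ∈ U, g * f ∈ U
  mul_right_mem : ∀ (g : Poly F), ∀ f ∈ U, f * g ∈ U
  endo_mem : ∀ φ : Poly F →ₙₐ[F] Poly F, ∀ f ∈ U, φ f ∈ U

/-- The T-ideal generated by a set of polynomials. -/
def generated {F : Type} [Field F] (S : Set (Poly F)) : Set (Poly F) :=
  {f | ∀ U : Set (Poly F), IsTIdeal U → S ⊆ U → f ∈ U}

/-- The T-ideal of identities of the variety defined by the set `S` of identities: the polynomials
which vanish on every associative algebra satisfying all the identities of `S`. -/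
def varietyIdentities {F : Type} [Field F] (S : Set (Poly F)) : Set (Poly F) :=
  {f | ∀ (A : Type) [NonUnitalRing A] [Module F A] [IsScalarTower F A A] [SMulCommClass F A A],
    S ⊆ identities F A → f ∈ identities F A}

/-- The variety defined by `S` is finitely based: its T-ideal of identities is generated, as a
T-ideal, by finitely many polynomials. -/
def FinitelyBased {F : Type} [Field F] (S : Set (Poly F)) : Prop :=
  ∃ Φ : Finset (Poly F), generated (Φ : Set (Poly F)) = varietyIdentities S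

/-- The variety generated by `M_n(F)` is Specht: each of its subvarieties (these are the varieties
defined by the sets of identities which contain all the identities of `M_n(F)`) is finitely
based. -/
def IsSpecht (F : Type) [Field F] (n : ℕ) : Prop :=
  ∀ S : Set (Poly F), identities F (Matrix (Fin n) (Fin n) F) ⊆ S → FinitelyBased S

/-! ## The free algebra -/

section Free

variable {F : Type} [Field F]

/-- The variable `x_i`. -/
noncomputable def var (i : ℕ) : Poly F := MonoidAlgebra.single (FreeSemigroup.of i) 1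

variable {A : Type} [NonUnitalRing A] [Module F A] [IsScalarTower F A A] [SMulCommClass F A A]
variable {B : Type} [NonUnitalRing B] [Module F B] [IsScalarTower F B B] [SMulCommClass F B B]

lemma evalAt_var (a : ℕ → A) (i : ℕ) : evalAt a (var i : Poly F) = a i := by
  rw [evalAt, var, MonoidAlgebra.liftMagma_apply_apply]
  simp

lemma hom_ext' {φ ψ : Poly F →ₙₐ[F] A} (h : ∀ i, φ (var i) = ψ (var i)) : φ = ψ := by
  apply MonoidAlgebra.nonUnitalAlgHom_ext'
  apply FreeSemigroup.hom_ext
  funext i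
  exact h i

lemma map_evalAt (φ : A →ₙₐ[F] B) (a : ℕ → A) (f : Poly F) :
    φ (evalAt a f) = evalAt (fun i => φ (a i)) f := by
  have : φ.comp (evalAt a) = evalAt (fun i => φ (a i)) := by
    apply hom_ext'
    intro i
    rw [NonUnitalAlgHom.comp_apply, evalAt_var, evalAt_var]
  rw [← this]; rfl

lemma evalAt_endo (a : ℕ → A) (φ : Poly F →ₙₐ[F] Poly F) (f : Poly F) :
    evalAt a (φ f) = evalAt (fun i => evalAt a (φ (var i))) f := by
  have : (evalAt a).comp φ = evalAt (fun i => evalAt a (φ (var i))) := by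
    apply hom_ext'
    intro i
    rw [NonUnitalAlgHom.comp_apply, evalAt_var]
  rw [← this]; rfl

lemma identities_isTIdeal : IsTIdeal (identities F A) where
  zero_mem a := map_zero _
  add_mem f hf g hg a := by rw [map_add, hf a, hg a, add_zero]
  smul_mem c f hf a := by rw [map_smul, hf a, smul_zero]
  mul_left_mem g f hf a := by rw [map_mul, hf a, mul_zero]
  mul_right_mem g f hf a := by rw [map_mul, hf a, zero_mul]
  endo_mem φ f hf a := by rw [evalAt_endo]; exact hf _

/-! ## The relatively free algebra -/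

/-- The subspace of a T-ideal. -/
def sub {U : Set (Poly F)} (hU : IsTIdeal U) : Submodule F (Poly F) where
  carrier := U
  zero_mem' := hU.zero_mem
  add_mem' := fun ha hb => hU.add_mem _ ha _ hb
  smul_mem' := fun c _ ha => hU.smul_mem c _ ha

/-- The relatively free algebra. -/
def RelFree {U : Set (Poly F)} (hU : IsTIdeal U) : Type := Poly F ⧸ sub hU

variable {U : Set (Poly F)} (hU : IsTIdeal U)

noncomputable instance : AddCommGroup (RelFree hU) :=
  inferInstanceAs (AddCommGroup (Poly F ⧸ sub hU))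

noncomputable instance : Module F (RelFree hU) :=
  inferInstanceAs (Module F (Poly F ⧸ sub hU))

/-- The projection. -/
noncomputable def mk : Poly F →ₗ[F] RelFree hU := (sub hU).mkQ

lemma mk_surj : Function.Surjective (mk hU) := (sub hU).mkQ_surjective

lemma mk_eq_zero (f : Poly F) : mk hU f = 0 ↔ f ∈ U := Submodule.Quotient.mk_eq_zero (sub hU)

lemma mk_eq (f g : Poly F) : mk hU f = mk hU g ↔ f - g ∈ U := by
  rw [← sub_eq_zero, ← map_sub, mk_eq_zero]

noncomputable instance : Mul (RelFree hU) where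
  mul a b := mk hU (Function.surjInv (mk_surj hU) a * Function.surjInv (mk_surj hU) b)

lemma mk_mul (f g : Poly F) : mk hU (f * g) = mk hU f * mk hU g := by
  show mk hU (f * g) = mk hU (Function.surjInv (mk_surj hU) (mk hU f) *
    Function.surjInv (mk_surj hU) (mk hU g))
  set f' := Function.surjInv (mk_surj hU) (mk hU f) with hf'
  set g' := Function.surjInv (mk_surj hU) (mk hU g) with hg'
  have h1 : f - f' ∈ U := (mk_eq hU f f').1 (Function.surjInv_eq (mk_surj hU) (mk hU f)).symm
  have h2 : g - g' ∈ U := (mk_eq hU g g').1 (Function.surjInv_eq (mk_surj hU) (mk hU g)).symm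
  rw [mk_eq]
  have : f * g - f' * g' = (f - f') * g + f' * (g - g') := by noncomm_ring
  rw [this]
  exact hU.add_mem _ (hU.mul_right_mem _ _ h1) _ (hU.mul_left_mem _ _ h2)

noncomputable instance : NonUnitalRing (RelFree hU) where
  left_distrib a b c := by
    obtain ⟨a, rfl⟩ := mk_surj hU a
    obtain ⟨b, rfl⟩ := mk_surj hU b
    obtain ⟨c, rfl⟩ := mk_surj hU c
    rw [← map_add, ← mk_mul, mul_add, map_add, mk_mul, mk_mul]
  right_distrib a b c := by
    obtain ⟨a, rfl⟩ := mk_surj hU a
    obtain ⟨b, rfl⟩ := mk_surj hU b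
    obtain ⟨c, rfl⟩ := mk_surj hU c
    rw [← map_add, ← mk_mul, add_mul, map_add, mk_mul, mk_mul]
  zero_mul a := by
    obtain ⟨a, rfl⟩ := mk_surj hU a
    rw [← map_zero (mk hU), ← mk_mul, zero_mul]
  mul_zero a := by
    obtain ⟨a, rfl⟩ := mk_surj hU a
    rw [← map_zero (mk hU), ← mk_mul, mul_zero]
  mul_assoc a b c := by
    obtain ⟨a, rfl⟩ := mk_surj hU a
    obtain ⟨b, rfl⟩ := mk_surj hU b
    obtain ⟨c, rfl⟩ := mk_surj hU c
    rw [← mk_mul, ← mk_mul, ← mk_mul, ← mk_mul, mul_assoc]

instance : IsScalarTower F (RelFree hU) (RelFree hU) where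
  smul_assoc c a b := by
    obtain ⟨a, rfl⟩ := mk_surj hU a
    obtain ⟨b, rfl⟩ := mk_surj hU b
    rw [smul_eq_mul, smul_eq_mul, ← map_smul, ← mk_mul, smul_mul_assoc, map_smul, mk_mul]

instance : SMulCommClass F (RelFree hU) (RelFree hU) where
  smul_comm c a b := by
    obtain ⟨a, rfl⟩ := mk_surj hU a
    obtain ⟨b, rfl⟩ := mk_surj hU b
    rw [smul_eq_mul, smul_eq_mul, ← map_smul, ← mk_mul, ← mk_mul, mul_smul_comm, map_smul]

/-- The projection as a homomorphism of algebras. -/
noncomputable def mkHom : Poly F →ₙₐ[F] RelFree hU :=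
  { mk hU with
    map_mul' := mk_mul hU
    map_zero' := map_zero (mk hU) }

lemma mkHom_apply (f : Poly F) : mkHom hU f = mk hU f := rfl

lemma identities_relFree : identities F (RelFree hU) = U := by
  ext f
  constructor
  · intro hf
    have h1 := hf (fun i => mk hU (var i))
    have h2 : evalAt (fun i => mk hU (var i)) = mkHom hU := by
      apply hom_ext'
      intro i
      rw [evalAt_var]; rfl
    rw [h2, mkHom_apply, mk_eq_zero] at h1
    exact h1
  · intro hf a
    choose g hg using mk_surj hU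
    have h1 := map_evalAt (mkHom hU) (fun i => g (a i)) f
    have h2 : (fun i => mkHom hU (g (a i))) = a := by
      funext i
      exact hg (a i)
    rw [h2] at h1
    rw [← h1, mkHom_apply, mk_eq_zero]
    have h3 : evalAt (fun i => g (a i)) = (evalAt (fun i => g (a i)) : Poly F →ₙₐ[F] Poly F) := rfl
    exact hU.endo_mem _ f hf

/-- The identities of the variety defined by `S` are the T-ideal generated by `S`. -/
lemma varietyIdentities_eq (S : Set (Poly F)) : varietyIdentities S = generated S := by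
  ext f
  constructor
  · intro hf U hU hSU
    have h1 := hf (RelFree hU)
    rw [identities_relFree] at h1
    exact h1 hSU
  · intro hf A _ _ _ _ hS
    exact hf _ identities_isTIdeal hS

end Free

/-! ## The main argument -/

section Main

variable {F : Type} [Field F]

/-- The embedding in the free unital algebra. -/
noncomputable def toFree : Poly F →ₙₐ[F] FreeAlgebra F ℕ := evalAt (FreeAlgebra.ι F)

lemma lift_toFree {A : Type} [Ring A] [Algebra F A] (a : ℕ → A) (f : Poly F) :
    FreeAlgebra.lift F a (toFree f) = evalAt a f := by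
  have : ((FreeAlgebra.lift F a : FreeAlgebra F ℕ →ₐ[F] A) : FreeAlgebra F ℕ →ₙₐ[F] A).comp toFree
      = evalAt a := by
    apply hom_ext'
    intro i
    rw [NonUnitalAlgHom.comp_apply, toFree, evalAt_var, evalAt_var]
    exact FreeAlgebra.lift_ι_apply _ _
  rw [← this]; rfl

variable [CharP F 2]

lemma satP_isTIdeal (k : ℕ) : IsTIdeal {f : Poly F | Sat F k (toFree f)} where
  zero_mem := by
    show Sat F k (toFree 0)
    rw [map_zero]; exact sat_zero F k
  add_mem f hf g hg := by
    show Sat F k (toFree (f + g))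
    rw [map_add]; exact sat_add F k hf hg
  smul_mem c f hf := by
    show Sat F k (toFree (c • f))
    rw [map_smul]; exact sat_smul F k c hf
  mul_left_mem g f hf := by
    show Sat F k (toFree (g * f))
    rw [map_mul]; exact sat_mul_left F k _ hf
  mul_right_mem g f hf := by
    show Sat F k (toFree (f * g))
    rw [map_mul]; exact sat_mul_right F k _ hf
  endo_mem φ f hf := by
    show Sat F k (toFree (φ f))
    have h : toFree (φ f) = FreeAlgebra.lift F (fun i => toFree (φ (var i))) (toFree f) := by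
      rw [lift_toFree, toFree, evalAt_endo]
    rw [h]
    exact sat_endo F k _ hf

/-- The polynomials `w_n`. -/
noncomputable def ww (n : ℕ) : Poly F := wp var n

lemma toFree_ww (n : ℕ) : toFree (ww n : Poly F) = wp (FreeAlgebra.ι F) n := by
  rw [ww, map_wp toFree (map_add _) (map_mul _)]
  simp only [toFree, evalAt_var]

lemma isTIdeal_sInter (𝒰 : Set (Set (Poly F))) (h : ∀ U ∈ 𝒰, IsTIdeal U) : IsTIdeal (⋂₀ 𝒰) where
  zero_mem := fun U hU => (h U hU).zero_mem
  add_mem f hf g hg := fun U hU => (h U hU).add_mem f (hf U hU) g (hg U hU)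
  smul_mem c f hf := fun U hU => (h U hU).smul_mem c f (hf U hU)
  mul_left_mem g f hf := fun U hU => (h U hU).mul_left_mem g f (hf U hU)
  mul_right_mem g f hf := fun U hU => (h U hU).mul_right_mem g f (hf U hU)
  endo_mem φ f hf := fun U hU => (h U hU).endo_mem φ f (hf U hU)

lemma isTIdeal_iUnion (U : ℕ → Set (Poly F)) (hm : Monotone U) (h : ∀ K, IsTIdeal (U K)) :
    IsTIdeal (⋃ K, U K) where
  zero_mem := Set.mem_iUnion.2 ⟨0, (h 0).zero_mem⟩
  add_mem f hf g hg := by
    obtain ⟨K, hK⟩ := Set.mem_iUnion.1 hf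
    obtain ⟨L, hL⟩ := Set.mem_iUnion.1 hg
    exact Set.mem_iUnion.2 ⟨max K L, (h _).add_mem _ (hm (le_max_left K L) hK) _
      (hm (le_max_right K L) hL)⟩
  smul_mem c f hf := by
    obtain ⟨K, hK⟩ := Set.mem_iUnion.1 hf
    exact Set.mem_iUnion.2 ⟨K, (h K).smul_mem c f hK⟩
  mul_left_mem g f hf := by
    obtain ⟨K, hK⟩ := Set.mem_iUnion.1 hf
    exact Set.mem_iUnion.2 ⟨K, (h K).mul_left_mem g f hK⟩
  mul_right_mem g f hf := by
    obtain ⟨K, hK⟩ := Set.mem_iUnion.1 hf
    exact Set.mem_iUnion.2 ⟨K, (h K).mul_right_mem g f hK⟩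
  endo_mem φ f hf := by
    obtain ⟨K, hK⟩ := Set.mem_iUnion.1 hf
    exact Set.mem_iUnion.2 ⟨K, (h K).endo_mem φ f hK⟩

theorem not_isSpecht [Infinite F] (n : ℕ) (hn : 10 ≤ n) : ¬ IsSpecht F n := by
  intro h
  obtain ⟨Φ, hΦ⟩ := h (identities F (Matrix (Fin n) (Fin n) F) ∪ Set.range ww)
    Set.subset_union_left
  rw [varietyIdentities_eq] at hΦ
  refine not_fg IsTIdeal isTIdeal_sInter isTIdeal_iUnion
    (identities F (Matrix (Fin n) (Fin n) F)) ww ?_ Φ hΦ
  intro K
  refine ⟨{f : Poly F | Sat F (K + 2) (toFree f)}, satP_isTIdeal (K + 2), ?_, ?_, K + 2, ?_⟩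
  · intro f hf
    apply sat_of_matrix' F (K + 2) n hn
    intro a
    rw [lift_toFree]
    exact hf a
  · intro j hj
    show Sat F (K + 2) (toFree (ww j))
    rw [toFree_ww]
    exact sat_wp F (K + 2) j (by omega)
  · show ¬ Sat F (K + 2) (toFree (ww (K + 2)))
    rw [toFree_ww]
    exact not_sat_wp F (K + 2)

/-! ## The unital version -/

/-- T-ideals of the free unital algebra, as sets. -/
structure IsTIdealU (U : Set (FreeAlgebra F ℕ)) : Prop where
  zero_mem : (0 : FreeAlgebra F ℕ) ∈ U
  add_mem : ∀ f ∈ U, ∀ g ∈ U, f + g ∈ U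
  mul_left_mem : ∀ (g : FreeAlgebra F ℕ), ∀ f ∈ U, g * f ∈ U
  mul_right_mem : ∀ (g : FreeAlgebra F ℕ), ∀ f ∈ U, f * g ∈ U
  endo_mem : ∀ ψ : FreeAlgebra F ℕ →ₐ[F] FreeAlgebra F ℕ, ∀ f ∈ U, ψ f ∈ U

lemma isTIdealU_sInter (𝒰 : Set (Set (FreeAlgebra F ℕ))) (h : ∀ U ∈ 𝒰, IsTIdealU U) :
    IsTIdealU (⋂₀ 𝒰) where
  zero_mem := fun U hU => (h U hU).zero_mem
  add_mem f hf g hg := fun U hU => (h U hU).add_mem f (hf U hU) g (hg U hU)
  mul_left_mem g f hf := fun U hU => (h U hU).mul_left_mem g f (hf U hU)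
  mul_right_mem g f hf := fun U hU => (h U hU).mul_right_mem g f (hf U hU)
  endo_mem φ f hf := fun U hU => (h U hU).endo_mem φ f (hf U hU)

lemma isTIdealU_iUnion (U : ℕ → Set (FreeAlgebra F ℕ)) (hm : Monotone U)
    (h : ∀ K, IsTIdealU (U K)) : IsTIdealU (⋃ K, U K) where
  zero_mem := Set.mem_iUnion.2 ⟨0, (h 0).zero_mem⟩
  add_mem f hf g hg := by
    obtain ⟨K, hK⟩ := Set.mem_iUnion.1 hf
    obtain ⟨L, hL⟩ := Set.mem_iUnion.1 hg
    exact Set.mem_iUnion.2 ⟨max K L, (h _).add_mem _ (hm (le_max_left K L) hK) _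
      (hm (le_max_right K L) hL)⟩
  mul_left_mem g f hf := by
    obtain ⟨K, hK⟩ := Set.mem_iUnion.1 hf
    exact Set.mem_iUnion.2 ⟨K, (h K).mul_left_mem g f hK⟩
  mul_right_mem g f hf := by
    obtain ⟨K, hK⟩ := Set.mem_iUnion.1 hf
    exact Set.mem_iUnion.2 ⟨K, (h K).mul_right_mem g f hK⟩
  endo_mem φ f hf := by
    obtain ⟨K, hK⟩ := Set.mem_iUnion.1 hf
    exact Set.mem_iUnion.2 ⟨K, (h K).endo_mem φ f hK⟩

/-- A two-sided ideal from a T-ideal given as a set. -/
def toIdeal {U : Set (FreeAlgebra F ℕ)} (h : IsTIdealU U) : TwoSidedIdeal (FreeAlgebra F ℕ) :=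
  TwoSidedIdeal.mk' U h.zero_mem (fun {x y} hx hy => h.add_mem x hx y hy)
    (fun {x} hx => by
      have := h.mul_left_mem (-1) x hx
      rwa [neg_one_mul] at this)
    (fun {x y} hy => h.mul_left_mem x y hy) (fun {x y} hx => h.mul_right_mem y x hx)

lemma mem_toIdeal {U : Set (FreeAlgebra F ℕ)} (h : IsTIdealU U) (f : FreeAlgebra F ℕ) :
    f ∈ toIdeal h ↔ f ∈ U := by
  rw [toIdeal, TwoSidedIdeal.mem_mk']

lemma isTIdealU_coe (I : TwoSidedIdeal (FreeAlgebra F ℕ))
    (hI : ∀ ψ : FreeAlgebra F ℕ →ₐ[F] FreeAlgebra F ℕ, ∀ g ∈ I, ψ g ∈ I) :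
    IsTIdealU {f | f ∈ I} where
  zero_mem := I.zero_mem
  add_mem _ hf _ hg := I.add_mem hf hg
  mul_left_mem g f hf := I.mul_mem_left g f hf
  mul_right_mem g f hf := I.mul_mem_right f g hf
  endo_mem φ f hf := hI φ f hf

theorem not_fg_unital [Infinite F] (n : ℕ) (hn : 10 ≤ n) :
    ∃ U : TwoSidedIdeal (FreeAlgebra F ℕ),
      (∀ ψ : FreeAlgebra F ℕ →ₐ[F] FreeAlgebra F ℕ, ∀ g ∈ U, ψ g ∈ U) ∧
      (∀ f : FreeAlgebra F ℕ,
        (∀ φ : ℕ → Matrix (Fin n) (Fin n) F, FreeAlgebra.lift F φ f = 0) → f ∈ U) ∧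
      ¬ ∃ S : Finset (FreeAlgebra F ℕ), ∀ f : FreeAlgebra F ℕ,
        f ∈ U ↔ ∀ I : TwoSidedIdeal (FreeAlgebra F ℕ),
            (∀ g ∈ S, g ∈ I) →
            (∀ ψ : FreeAlgebra F ℕ →ₐ[F] FreeAlgebra F ℕ, ∀ g ∈ I, ψ g ∈ I) →
            f ∈ I := by
  set T0 : Set (FreeAlgebra F ℕ) :=
    {f | ∀ φ : ℕ → Matrix (Fin n) (Fin n) F, FreeAlgebra.lift F φ f = 0} with hT0
  set w : ℕ → FreeAlgebra F ℕ := fun j => wp (FreeAlgebra.ι F) j with hw
  have hno := not_fg IsTIdealU isTIdealU_sInter isTIdealU_iUnion T0 w (by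
    intro K
    refine ⟨{f | Sat F (K + 2) f}, ⟨sat_zero F _, fun f hf g hg => sat_add F _ hf hg,
      fun g f hf => sat_mul_left F _ g hf, fun g f hf => sat_mul_right F _ g hf,
      fun ψ f hf => sat_endo F _ ψ hf⟩, ?_, ?_, K + 2, ?_⟩
    · intro f hf
      exact sat_of_matrix' F (K + 2) n hn f hf
    · intro j hj
      exact sat_wp F (K + 2) j (by omega)
    · exact not_sat_wp F (K + 2))
  have hcl : IsTIdealU {f | ∀ U, IsTIdealU U → T0 ∪ Set.range w ⊆ U → f ∈ U} := by
    have : {f | ∀ U, IsTIdealU U → T0 ∪ Set.range w ⊆ U → f ∈ U}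
        = ⋂₀ {U | IsTIdealU U ∧ T0 ∪ Set.range w ⊆ U} := by
      ext f
      exact ⟨fun h U hU => h U hU.1 hU.2, fun h U h1 h2 => h U ⟨h1, h2⟩⟩
    rw [this]
    exact isTIdealU_sInter _ (fun U hU => hU.1)
  refine ⟨toIdeal hcl, ?_, ?_, ?_⟩
  · intro ψ g hg
    rw [mem_toIdeal] at hg ⊢
    exact hcl.endo_mem ψ g hg
  · intro f hf
    rw [mem_toIdeal]
    intro U _ hSU
    exact hSU (Or.inl hf)
  · rintro ⟨S, hS⟩
    refine hno S ?_
    ext f
    rw [← mem_toIdeal hcl, hS]
    constructor
    · intro h I hSI hI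
      exact h {f | f ∈ I} (isTIdealU_coe I hI) hSI
    · intro h U hU hSU
      have := h (toIdeal hU) (fun g hg => (mem_toIdeal hU g).2 (hSU hg)) (by
        intro ψ g hg
        rw [mem_toIdeal] at hg ⊢
        exact hU.endo_mem ψ g hg)
      rwa [mem_toIdeal] at this

end Main

/-- Let `F` be an infinite field of characteristic two and `n ≥ 10`. Then the variety generated by
`M_n(F)` is not Specht: it has a subvariety which is not finitely based. -/
theorem result (F : Type) [Field F] [CharP F 2] [Infinite F] (n : ℕ) (hn : 10 ≤ n) :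
    ¬ IsSpecht F n :=
  not_isSpecht n hn

end Pool.Agent.Results.MP_63ef02_al.NotSpecht
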